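import Mathlib
set_option autoImplicit false

/-! Word lengths and horofunctions: basic facts. -/

namespace Pool.Agent.Helper7.Horo

open Set

variable {G : Type*} [Group G]

/-- word length with respect to S (words in S only) -/
noncomputable def len (S : Finset G) (g : G) : ℕ :=
  sInf {n : ℕ | ∃ l : List G, l.length = n ∧ (∀ s ∈ l, s ∈ S) ∧ l.prod = g}

variable {S : Finset G}

lemma exists_word (hS : ∀ s ∈ S, s⁻¹ ∈ S) (hgen : Subgroup.closure (S : Set G) = ⊤) (g : G) :
    ∃ l : List G, (∀ s ∈ l, s ∈ S) ∧ l.prod = g := by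
  have hg : g ∈ Subgroup.closure (S : Set G) := by rw [hgen]; trivial
  induction hg using Subgroup.closure_induction with
  | mem x hx => exact ⟨[x], by simpa using hx, by simp⟩
  | one => exact ⟨[], by simp, by simp⟩
  | mul x y _ _ ihx ihy =>
    obtain ⟨l, hl, rfl⟩ := ihx
    obtain ⟨l', hl', rfl⟩ := ihy
    refine ⟨l ++ l', ?_, by simp⟩
    intro s hs
    rcases List.mem_append.1 hs with h | h
    · exact hl s h
    · exact hl' s h
  | inv x _ ihx =>
    obtain ⟨l, hl, rfl⟩ := ihx
    refine ⟨(l.map (fun x => x⁻¹)).reverse, ?_, ?_⟩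
    · intro s hs
      rw [List.mem_reverse, List.mem_map] at hs
      obtain ⟨t, ht, rfl⟩ := hs
      exact hS t (hl t ht)
    · rw [List.prod_inv_reverse]

/-- the standing assumptions -/
structure Gen (S : Finset G) : Prop where
  symm : ∀ s ∈ S, s⁻¹ ∈ S
  gen : Subgroup.closure (S : Set G) = ⊤

variable (h : Gen S)
include h

lemma exists_geod (g : G) :
    ∃ l : List G, l.length = len S g ∧ (∀ s ∈ l, s ∈ S) ∧ l.prod = g := by
  obtain ⟨l, hl, hp⟩ := exists_word h.symm h.gen g
  exact Nat.sInf_mem (s := {n : ℕ | ∃ l : List G, l.length = n ∧ (∀ s ∈ l, s ∈ S) ∧ l.prod = g})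
    ⟨l.length, l, rfl, hl, hp⟩

omit h in
lemma len_le {g : G} {l : List G} (hl : ∀ s ∈ l, s ∈ S) (hp : l.prod = g) : len S g ≤ l.length :=
  Nat.sInf_le ⟨l, rfl, hl, hp⟩

omit h in
lemma len_one : len S (1 : G) = 0 := by
  have := len_le (S := S) (g := (1 : G)) (l := []) (by simp) (by simp)
  simpa using this

lemma len_mul (g k : G) : len S (g * k) ≤ len S g + len S k := by
  obtain ⟨l, h1, h2, h3⟩ := exists_geod h g
  obtain ⟨l', h1', h2', h3'⟩ := exists_geod h k
  rw [← h1, ← h1', ← List.length_append]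
  apply len_le
  · intro s hs
    rcases List.mem_append.1 hs with h | h
    · exact h2 s h
    · exact h2' s h
  · rw [List.prod_append, h3, h3']

lemma len_inv_le (g : G) : len S g⁻¹ ≤ len S g := by
  obtain ⟨l, h1, h2, h3⟩ := exists_geod h g
  rw [← h1]
  have : ((l.map (fun x => x⁻¹)).reverse).length = l.length := by simp
  rw [← this]
  apply len_le
  · intro s hs
    rw [List.mem_reverse, List.mem_map] at hs
    obtain ⟨t, ht, rfl⟩ := hs
    exact h.symm t (h2 t ht)
  · rw [← h3, List.prod_inv_reverse]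

lemma len_inv (g : G) : len S g⁻¹ = len S g := by
  apply le_antisymm (len_inv_le h g)
  have := len_inv_le h g⁻¹
  rwa [inv_inv] at this

lemma exists_mid (g : G) {r : ℕ} (hr : r ≤ len S g) :
    ∃ k : G, len S k = r ∧ len S (k⁻¹ * g) + r = len S g := by
  obtain ⟨l, h1, h2, h3⟩ := exists_geod h g
  have hk1 : len S (l.take r).prod ≤ r := by
    have := len_le (S := S) (g := (l.take r).prod) (l := l.take r)
      (fun s hs => h2 s (List.mem_of_mem_take hs)) rfl
    rw [List.length_take] at this
    exact this.trans (min_le_left _ _)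
  have hk2 : len S ((l.take r).prod⁻¹ * g) ≤ len S g - r := by
    have e : (l.take r).prod⁻¹ * g = (l.drop r).prod := by
      rw [inv_mul_eq_iff_eq_mul, List.prod_take_mul_prod_drop, h3]
    have := len_le (S := S) (g := (l.drop r).prod) (l := l.drop r)
      (fun s hs => h2 s (List.mem_of_mem_drop hs)) rfl
    rw [List.length_drop, h1] at this
    rw [e]; exact this
  have hk3 : len S g ≤ len S (l.take r).prod + len S ((l.take r).prod⁻¹ * g) := by
    have := len_mul h (l.take r).prod ((l.take r).prod⁻¹ * g)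
    rwa [mul_inv_cancel_left] at this
  refine ⟨(l.take r).prod, ?_, ?_⟩ <;> omega

omit h in
lemma ball_finite_aux (n : ℕ) :
    {g : G | ∃ l : List G, l.length ≤ n ∧ (∀ s ∈ l, s ∈ S) ∧ l.prod = g}.Finite := by
  apply ((List.finite_length_le {x : G // x ∈ S} n).image
    (fun l => (l.map Subtype.val).prod)).subset
  rintro g ⟨l, h1, h2, h3⟩
  refine ⟨l.attach.map (fun x => ⟨x.1, h2 x.1 x.2⟩), ?_, ?_⟩
  · simpa using h1
  · simp only [List.map_map]
    rw [← h3]
    congr 1
    conv_rhs => rw [← List.attach_map_subtype_val l]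
    rfl

lemma ball_finite (n : ℕ) : {g : G | len S g ≤ n}.Finite := by
  apply (ball_finite_aux (S := S) n).subset
  intro g hg
  obtain ⟨l, h1, h2, h3⟩ := exists_geod h g
  exact ⟨l, by rw [h1]; exact hg, h2, h3⟩

/-- ball as a finset -/
noncomputable def ball (n : ℕ) : Finset G := (ball_finite h n).toFinset

lemma mem_ball {n : ℕ} {g : G} : g ∈ ball h n ↔ len S g ≤ n := by
  simp [ball]

omit h in
/-- the functions b_x -/
noncomputable def bb (S : Finset G) (x : G) : G → ℝ := fun z => (len S (z⁻¹ * x) : ℝ) - len S x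

lemma bb_ge (x z : G) : -(len S z : ℝ) ≤ bb S x z := by
  have := len_mul h z (z⁻¹ * x)
  rw [mul_inv_cancel_left] at this
  have h2 : (len S x : ℝ) ≤ len S z + len S (z⁻¹ * x) := by exact_mod_cast this
  simp only [bb]; linarith

lemma bb_le (x z : G) : bb S x z ≤ (len S z : ℝ) := by
  have := len_mul h z⁻¹ x
  rw [len_inv h] at this
  have h2 : (len S (z⁻¹ * x) : ℝ) ≤ len S z + len S x := by exact_mod_cast this
  simp only [bb]; linarith

lemma bb_ge' (x z : G) : -(len S x : ℝ) ≤ bb S x z := by
  have h2 : (0 : ℝ) ≤ len S (z⁻¹ * x) := by positivity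
  simp only [bb]; linarith

/-- the closure of the functions b_x is compact -/
lemma closure_compact : IsCompact (closure (range (bb S))) := by
  have hK : IsCompact (Set.pi univ (fun z : G => Icc (-(len S z : ℝ)) (len S z : ℝ))) :=
    isCompact_univ_pi (fun z => isCompact_Icc)
  apply hK.of_isClosed_subset isClosed_closure
  apply closure_minimal _ hK.isClosed
  rintro _ ⟨x, rfl⟩ z _
  exact ⟨bb_ge h x z, bb_le h x z⟩

/-- b_x for long x goes down along some geodesic -/
lemma exists_down (x : G) {r : ℕ} (hr : r ≤ len S x) :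
    ∃ k : G, len S k = r ∧ bb S x k = -(r : ℝ) := by
  obtain ⟨k, h1, h2⟩ := exists_mid h x hr
  refine ⟨k, h1, ?_⟩
  have h3 : (len S (k⁻¹ * x) : ℝ) + r = len S x := by exact_mod_cast h2
  simp only [bb]; linarith

/-- horofunctions go down to -∞ at unit speed -/
lemma horo_down {ξ : G → ℝ} (hξ : ξ ∈ closure (range (bb S)) \ range (bb S)) (r : ℕ) :
    ∃ k : G, len S k = r ∧ ξ k = -(r : ℝ) := by
  by_contra hcon
  push Not at hcon
  let O : Set (G → ℝ) := {f | ∀ k ∈ (ball h r : Finset G), len S k = r → f k ≠ -(r : ℝ)}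
  have hO : IsOpen O := by
    have : O = ⋂ k ∈ (ball h r : Finset G), {f : G → ℝ | len S k = r → f k ≠ -(r : ℝ)} := by
      ext f; simp [O]
    rw [this]
    apply isOpen_biInter_finset
    intro k _
    by_cases hk : len S k = r
    · simp only [hk, forall_const]
      exact isOpen_compl_singleton.preimage (continuous_apply k)
    · simp [hk]
  have hξO : ξ ∈ O := fun k _ hk => hcon k hk
  have hsub : range (bb S) ∩ O ⊆ bb S '' {x : G | len S x ≤ r} := by
    rintro _ ⟨⟨x, rfl⟩, hx⟩
    refine ⟨x, ?_, rfl⟩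
    by_contra hlt
    simp only [mem_ofPred_eq, not_le] at hlt
    obtain ⟨k, hk1, hk2⟩ := exists_down h x hlt.le
    exact hx k ((mem_ball h).2 hk1.le) hk1 hk2
  have hcl : ξ ∈ closure (range (bb S) ∩ O) := by
    have := hO.inter_closure (t := range (bb S))
    rw [inter_comm (range (bb S)) O]
    exact this ⟨hξO, hξ.1⟩
  have hfin : (bb S '' {x : G | len S x ≤ r}).Finite := (ball_finite h r).image _
  have h2 : ξ ∈ bb S '' {x : G | len S x ≤ r} := by
    have := closure_mono hsub hcl
    rwa [hfin.isClosed.closure_eq] at this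
  obtain ⟨x, _, hx⟩ := h2
  exact hξ.2 ⟨x, hx⟩

end Pool.Agent.Helper7.Horo
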