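import Mathlib
set_option autoImplicit false

/-! A countable compact set with a group action: a closed set meets some invariant closed set in a
finite nonempty set. -/

namespace Pool.Agent.Helper7.Horo

open Set Filter Topology

lemma exists_isolated {α : Type*} [TopologicalSpace α] [T2Space α] {Y : Set α}
    (hY : IsCompact Y) (hne : Y.Nonempty) (hc : Y.Countable) :
    ∃ x ∈ Y, ∃ U : Set α, IsOpen U ∧ U ∩ Y = {x} := by
  have : CompactSpace Y := isCompact_iff_compactSpace.1 hY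
  have : Nonempty Y := hne.to_subtype
  have : Countable Y := hc.to_subtype
  obtain ⟨y, z, hz⟩ := nonempty_interior_of_iUnion_of_closed (f := fun y : Y => ({y} : Set Y))
    (fun y => isClosed_singleton) (by ext y; simp)
  have h1 : z = y := by
    have := interior_subset hz
    simpa using this
  subst h1
  have h2 : interior ({z} : Set Y) = {z} := by
    apply Subset.antisymm interior_subset
    intro w hw
    rw [mem_singleton_iff] at hw
    rw [hw]; exact hz
  have h3 : IsOpen ({z} : Set Y) := by rw [← h2]; exact isOpen_interior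
  obtain ⟨U, hU, hU2⟩ := isOpen_induced_iff.1 h3
  refine ⟨z, z.2, U, hU, ?_⟩
  ext w
  constructor
  · rintro ⟨hw1, hw2⟩
    have : (⟨w, hw2⟩ : Y) ∈ Subtype.val ⁻¹' U := hw1
    rw [hU2, mem_singleton_iff] at this
    rw [mem_singleton_iff, ← this]
  · intro hw
    rw [mem_singleton_iff] at hw
    subst hw
    have : z ∈ Subtype.val ⁻¹' U := by rw [hU2]; rfl
    exact ⟨this, z.2⟩

lemma exists_minimal_finite {α G : Type*} [TopologicalSpace α] [T2Space α] [Group G]
    (a : G → α → α) (ha : ∀ g, Continuous (a g)) (K V : Set α) (hK : IsCompact K)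
    (hKc : K.Countable) (hinv : ∀ g, ∀ x ∈ K, a g x ∈ K)
    (hinj : ∀ g, ∀ x ∈ K, ∀ y ∈ K, a g x = a g y → x = y)
    (hV : IsClosed V) (hne : (K ∩ V).Nonempty) :
    ∃ Y ⊆ K, (∀ g, ∀ x ∈ Y, a g x ∈ Y) ∧ (Y ∩ V).Nonempty ∧ (Y ∩ V).Finite := by
  let 𝓕 : Set (Set α) := {Y | Y ⊆ K ∧ IsClosed Y ∧ (∀ g, ∀ x ∈ Y, a g x ∈ Y) ∧ (Y ∩ V).Nonempty}
  have hKcl : IsClosed K := hK.isClosed
  obtain ⟨Y, _, hY⟩ := zorn_superset_nonempty 𝓕 (by
    intro c hc hchain hcne
    refine ⟨⋂₀ c, ⟨?_, ?_, ?_, ?_⟩, fun s hs => sInter_subset_of_mem hs⟩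
    · obtain ⟨s, hs⟩ := hcne
      exact (sInter_subset_of_mem hs).trans (hc hs).1
    · exact isClosed_sInter (fun s hs => (hc hs).2.1)
    · intro g x hx
      rw [mem_sInter] at hx ⊢
      intro s hs
      exact (hc hs).2.2.1 g x (hx s hs)
    · have : Nonempty c := hcne.to_subtype
      have h1 : (⋂ s : c, (s : Set α) ∩ V).Nonempty := by
        apply IsCompact.nonempty_iInter_of_directed_nonempty_isCompact_isClosed
        · intro s t
          rcases hchain.total s.2 t.2 with hst | hts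
          · exact ⟨s, subset_rfl, inter_subset_inter_left _ hst⟩
          · exact ⟨t, inter_subset_inter_left _ hts, subset_rfl⟩
        · intro s; exact (hc s.2).2.2.2
        · intro s
          exact (hK.of_isClosed_subset (hc s.2).2.1 (hc s.2).1).inter_right hV
        · intro s
          exact (hc s.2).2.1.inter hV
      obtain ⟨x, hx⟩ := h1
      rw [mem_iInter] at hx
      obtain ⟨s0, hs0⟩ := hcne
      refine ⟨x, ?_, (hx ⟨s0, hs0⟩).2⟩
      rw [mem_sInter]
      intro s hs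
      exact (hx ⟨s, hs⟩).1) K ⟨subset_rfl, hKcl, hinv, hne⟩
  obtain ⟨hYK, hYcl, hYinv, hYV⟩ := hY.prop
  have hYc : IsCompact Y := hK.of_isClosed_subset hYcl hYK
  -- the isolated points
  let W : Set α := ⋃₀ {U | IsOpen U ∧ ∃ x, U ∩ Y = {x}}
  have hW : IsOpen W := isOpen_sUnion (fun U hU => hU.1)
  have hY'inv : ∀ g, ∀ x ∈ Y \ W, a g x ∈ Y \ W := by
    intro g x hx
    refine ⟨hYinv g x hx.1, ?_⟩
    rintro ⟨U, ⟨hU1, z, hU2⟩, hU3⟩
    apply hx.2
    refine ⟨a g ⁻¹' U, ⟨hU1.preimage (ha g), x, ?_⟩, hU3⟩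
    have hz : a g x = z := by
      have : a g x ∈ U ∩ Y := ⟨hU3, hYinv g x hx.1⟩
      rw [hU2] at this; exact this
    ext w
    constructor
    · rintro ⟨hw1, hw2⟩
      have : a g w ∈ U ∩ Y := ⟨hw1, hYinv g w hw2⟩
      rw [hU2, mem_singleton_iff, ← hz] at this
      exact hinj g w (hYK hw2) x (hYK hx.1) this
    · intro hw
      rw [mem_singleton_iff] at hw
      rw [hw]
      exact ⟨hU3, hx.1⟩
  have hY'V : ¬ ((Y \ W) ∩ V).Nonempty := by
    intro hne'
    have hmem : Y \ W ∈ 𝓕 :=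
      ⟨sdiff_subset.trans hYK, hYcl.sdiff hW, hY'inv, hne'⟩
    have hle : Y ⊆ Y \ W := hY.le_of_le hmem sdiff_subset
    obtain ⟨x, hx, U, hU1, hU2⟩ := exists_isolated hYc (hYV.mono inter_subset_left)
      (hKc.mono hYK)
    have hxU : x ∈ U := by
      have : x ∈ U ∩ Y := by rw [hU2]; rfl
      exact this.1
    exact (hle hx).2 ⟨U, ⟨hU1, x, hU2⟩, hxU⟩
  refine ⟨Y, hYK, hYinv, hYV, ?_⟩
  -- finiteness
  have hcomp : IsCompact (Y ∩ V) := hYc.inter_right hV
  have hiso : ∀ x ∈ Y ∩ V, ∃ U : Set α, IsOpen U ∧ x ∈ U ∧ U ∩ Y = {x} := by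
    intro x hx
    have hxW : x ∈ W := by
      by_contra hxW
      exact hY'V ⟨x, ⟨hx.1, hxW⟩, hx.2⟩
    obtain ⟨U, ⟨hU1, z, hU2⟩, hU3⟩ := hxW
    have : x ∈ U ∩ Y := ⟨hU3, hx.1⟩
    rw [hU2, mem_singleton_iff] at this
    subst this
    exact ⟨U, hU1, hU3, hU2⟩
  choose! U hU1 hU2 hU3 using hiso
  obtain ⟨t, ht1, ht2⟩ := hcomp.elim_nhds_subcover U
    (fun x hx => (hU1 x hx).mem_nhds (hU2 x hx))
  apply t.finite_toSet.subset
  intro x hx
  obtain ⟨z, hz, hxz⟩ := mem_iUnion₂.1 (ht2 hx)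
  have : x ∈ U z ∩ Y := ⟨hxz, hx.1⟩
  rw [hU3 z (ht1 z hz), mem_singleton_iff] at this
  rw [this]; exact hz

end Pool.Agent.Helper7.Horo
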