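import Pool.Agent.Helper7.Horo.Basic
set_option autoImplicit false

/-! Exponential growth forces an uncountable metric-functional boundary. -/

namespace Pool.Agent.Helper7.Horo

open Set

variable {G : Type*} [Group G] {S : Finset G}

/-- the neighbourhood of b_x that contains no b_y with y longer than x -/
def OO (S : Finset G) (m : ℕ) : Set (G → ℝ) := {f | ∀ k : G, len S k = m + 1 → -((m : ℝ) + 1) < f k}

lemma isOpen_OO (h : Gen S) (m : ℕ) : IsOpen (OO S m) := by
  have : OO S m = ⋂ k ∈ (ball h (m+1) : Finset G), {f : G → ℝ | len S k = m + 1 → -((m : ℝ) + 1) < f k} := by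
    ext f
    simp only [OO, mem_ofPred_eq, mem_iInter]
    constructor
    · intro hf k _ hk; exact hf k hk
    · intro hf k hk; exact hf k ((mem_ball h).2 hk.le) hk
  rw [this]
  apply isOpen_biInter_finset
  intro k _
  by_cases hk : len S k = m + 1
  · simp only [hk, forall_const]
    exact isOpen_Ioi.preimage (continuous_apply k)
  · simp [hk]

lemma bb_mem_OO (h : Gen S) (x : G) : bb S x ∈ OO S (len S x) := by
  intro k _
  have := bb_ge' h x k
  linarith

lemma len_le_of_mem_OO (h : Gen S) {x : G} {m : ℕ} (hx : bb S x ∈ OO S m) : len S x ≤ m := by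
  by_contra hlt
  push Not at hlt
  obtain ⟨k, hk1, hk2⟩ := exists_down h x (r := m + 1) hlt
  have := hx k hk1
  rw [hk2] at this
  push_cast at this
  exact lt_irrefl _ this

/-- the covering lemma: if the boundary is contained in the union of open sets `V ξ` (ξ in the
boundary, ξ ∈ V ξ), then finitely many `V ξ` contain all b_x with x long enough. -/
lemma cover (h : Gen S) (V : (G → ℝ) → Set (G → ℝ)) (hV : ∀ ξ, IsOpen (V ξ))
    (hm : ∀ ξ ∈ closure (range (bb S)) \ range (bb S), ξ ∈ V ξ) :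
    ∃ (J : Finset (G → ℝ)) (N : ℕ), (∀ ξ ∈ J, ξ ∈ closure (range (bb S)) \ range (bb S)) ∧
      ∀ x : G, N < len S x → ∃ ξ ∈ J, bb S x ∈ V ξ := by
  classical
  let U : (G → ℝ) → Set (G → ℝ) := fun ξ =>
    if hξ : ξ ∈ range (bb S) then OO S (len S hξ.choose) else V ξ
  have hU : ∀ ξ, IsOpen (U ξ) := by
    intro ξ
    by_cases hξ : ξ ∈ range (bb S)
    · simp only [U, hξ, dif_pos]; exact isOpen_OO h _
    · simp only [U, hξ, dif_neg, not_false_iff]; exact hV ξ
  have hUm : ∀ ξ ∈ closure (range (bb S)), ξ ∈ U ξ := by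
    intro ξ hcl
    by_cases hξ : ξ ∈ range (bb S)
    · simp only [U, hξ, dif_pos]
      have e := hξ.choose_spec
      have := bb_mem_OO h hξ.choose
      rwa [e] at this
    · simp only [U, hξ, dif_neg, not_false_iff]; exact hm ξ ⟨hcl, hξ⟩
  obtain ⟨t, ht1, ht2⟩ := (closure_compact h).elim_nhds_subcover U
    (fun ξ hξ => (hU ξ).mem_nhds (hUm ξ hξ))
  let L : (G → ℝ) → ℕ := fun ξ => if hξ : ξ ∈ range (bb S) then len S hξ.choose else 0
  refine ⟨t.filter (fun ξ => ξ ∉ range (bb S)), t.sup L, ?_, ?_⟩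
  · intro ξ hξ
    rw [Finset.mem_filter] at hξ
    exact ⟨ht1 ξ hξ.1, hξ.2⟩
  · intro x hx
    have hxc : bb S x ∈ closure (range (bb S)) := subset_closure ⟨x, rfl⟩
    obtain ⟨ξ, hξt, hξU⟩ := mem_iUnion₂.1 (ht2 hxc)
    by_cases hξ : ξ ∈ range (bb S)
    · exfalso
      simp only [U, hξ, dif_pos] at hξU
      have h1 := len_le_of_mem_OO h hξU
      have h2 : L ξ ≤ t.sup L := Finset.le_sup hξt
      have h3 : L ξ = len S hξ.choose := by simp only [L, hξ, dif_pos]
      rw [h3] at h2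
      exact absurd (h1.trans h2) (not_le.2 hx)
    · refine ⟨ξ, Finset.mem_filter.2 ⟨hξt, hξ⟩, ?_⟩
      simpa only [U, hξ, dif_neg, not_false_iff] using hξU

/-- records of an unbounded sequence -/
lemma exists_record (f : ℕ → ℝ) (hf : ∀ C : ℝ, ∃ n, C < f n) (N : ℕ) :
    ∃ n, N < n ∧ ∀ m ≤ n, f m ≤ f n := by
  obtain ⟨m0, hm0, hmax0⟩ := Finset.exists_max_image (Finset.range (N+1)) f ⟨0, by simp⟩
  obtain ⟨n', hn'⟩ := hf (f m0)
  obtain ⟨n, hn, hmax⟩ := Finset.exists_max_image (Finset.range (n'+1)) f ⟨0, by simp⟩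
  refine ⟨n, ?_, ?_⟩
  · by_contra hle
    push Not at hle
    have h1 := hmax0 n (Finset.mem_range.2 (by omega))
    have h2 := hmax n' (Finset.mem_range.2 (by omega))
    linarith
  · intro m hm
    exact hmax m (Finset.mem_range.2 (by have := Finset.mem_range.1 hn; omega))

/-- number of elements in the ball -/
noncomputable def pp (h : Gen S) (n : ℕ) : ℕ := (ball h n).card

lemma pp_mono (h : Gen S) {m n : ℕ} (hmn : m ≤ n) : pp h m ≤ pp h n := by
  apply Finset.card_le_card
  intro x hx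
  rw [mem_ball] at hx ⊢
  omega

theorem not_countable_of_growth (h : Gen S) (lam : ℝ) (hlam : 1 < lam)
    (hg : ∀ C : ℝ, ∃ n, C < (pp h n : ℝ) / lam ^ n) :
    ¬ (closure (range (bb S)) \ range (bb S)).Countable := by
  classical
  intro hc
  have hlam0 : 0 < lam := by linarith
  -- an injection into ℕ
  obtain ⟨e, he⟩ := Set.countable_iff_exists_injOn.1 hc
  -- radii
  have hR : ∀ i : ℕ, ∃ r : ℕ, (1 / lam) ^ r ≤ (1/2 : ℝ) ^ (i + 2) := by
    intro i
    obtain ⟨r, hr⟩ := exists_pow_lt_of_lt_one (x := (1/2 : ℝ) ^ (i + 2)) (y := 1 / lam)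
      (by positivity) (by rw [div_lt_one hlam0]; exact hlam)
    exact ⟨r, hr.le⟩
  choose R hR using hR
  have hk : ∀ ξ : G → ℝ, ∃ k : G, ξ ∈ closure (range (bb S)) \ range (bb S) →
      len S k = R (e ξ) ∧ ξ k = -(R (e ξ) : ℝ) := by
    intro ξ
    by_cases hξ : ξ ∈ closure (range (bb S)) \ range (bb S)
    · obtain ⟨k, hk⟩ := horo_down h hξ (R (e ξ))
      exact ⟨k, fun _ => hk⟩
    · exact ⟨1, fun h' => absurd h' hξ⟩
  choose g hgk using hk
  let V : (G → ℝ) → Set (G → ℝ) := fun ξ => {f | f (g ξ) < -(R (e ξ) : ℝ) + 1}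
  have hV : ∀ ξ, IsOpen (V ξ) := fun ξ => isOpen_Iio.preimage (continuous_apply (g ξ))
  have hVm : ∀ ξ ∈ closure (range (bb S)) \ range (bb S), ξ ∈ V ξ := by
    intro ξ hξ
    simp only [V, mem_ofPred_eq, (hgk ξ hξ).2]
    linarith
  obtain ⟨J, N, hJ, hcov⟩ := cover h V hV hVm
  -- pick n
  obtain ⟨N1, hN1⟩ := hg (2 * pp h N)
  have hN1' : 2 * (pp h N : ℝ) < pp h N1 := by
    refine hN1.trans_le ?_
    apply div_le_self (by positivity)
    exact one_le_pow₀ hlam.le
  obtain ⟨n, hn, hrec⟩ := exists_record _ hg N1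
  have hrec' : ∀ r ≤ n, (pp h (n - r) : ℝ) ≤ (1 / lam) ^ r * pp h n := by
    intro r hr
    have := hrec (n - r) (by omega)
    rw [div_le_div_iff₀ (by positivity) (by positivity)] at this
    have e1 : lam ^ n = lam ^ (n - r) * lam ^ r := by rw [← pow_add]; congr 1; omega
    rw [e1, ← mul_assoc, mul_right_comm] at this
    have h2 := le_of_mul_le_mul_right this (by positivity)
    rw [one_div, inv_pow, inv_mul_eq_div, le_div_iff₀ (by positivity)]
    exact h2
  have hsub : ball h n ⊆ ball h N ∪ J.biUnion (fun ξ =>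
      (ball h n).filter (fun x => len S ((g ξ)⁻¹ * x) + R (e ξ) = len S x)) := by
    intro x hx
    rw [mem_ball] at hx
    rw [Finset.mem_union, mem_ball, Finset.mem_biUnion]
    by_cases hxN : len S x ≤ N
    · exact Or.inl hxN
    · right
      push Not at hxN
      obtain ⟨ξ, hξJ, hξV⟩ := hcov x hxN
      refine ⟨ξ, hξJ, Finset.mem_filter.2 ⟨(mem_ball h).2 hx, ?_⟩⟩
      have h1 := bb_ge h x (g ξ)
      rw [(hgk ξ (hJ ξ hξJ)).1] at h1
      simp only [V, mem_ofPred_eq, bb] at hξV h1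
      have h2 : (len S ((g ξ)⁻¹ * x) : ℝ) + R (e ξ) < len S x + 1 := by linarith
      have h3 : (len S x : ℝ) ≤ (len S ((g ξ)⁻¹ * x) : ℝ) + R (e ξ) := by linarith
      have h2' : len S ((g ξ)⁻¹ * x) + R (e ξ) < len S x + 1 := by exact_mod_cast h2
      have h3' : len S x ≤ len S ((g ξ)⁻¹ * x) + R (e ξ) := by exact_mod_cast h3
      omega
  have hcard : ∀ ξ ∈ J, (((ball h n).filter
      (fun x => len S ((g ξ)⁻¹ * x) + R (e ξ) = len S x)).card : ℝ) ≤
      (1/2 : ℝ) ^ (e ξ + 2) * pp h n := by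
    intro ξ hξ
    by_cases hr : R (e ξ) ≤ n
    · have h1 : ((ball h n).filter
          (fun x => len S ((g ξ)⁻¹ * x) + R (e ξ) = len S x)).card ≤ pp h (n - R (e ξ)) := by
        apply Finset.card_le_card_of_injOn (fun x => (g ξ)⁻¹ * x)
        · intro x hx
          rw [Finset.mem_coe, Finset.mem_filter, mem_ball] at hx
          rw [Finset.mem_coe, mem_ball]
          show len S ((g ξ)⁻¹ * x) ≤ n - R (e ξ)
          omega
        · intro x _ y _ hxy
          exact mul_left_cancel hxy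
      calc (((ball h n).filter
          (fun x => len S ((g ξ)⁻¹ * x) + R (e ξ) = len S x)).card : ℝ)
          ≤ pp h (n - R (e ξ)) := by exact_mod_cast h1
        _ ≤ (1 / lam) ^ (R (e ξ)) * pp h n := hrec' _ hr
        _ ≤ (1/2 : ℝ) ^ (e ξ + 2) * pp h n := by
          apply mul_le_mul_of_nonneg_right (hR _) (by positivity)
    · have : (ball h n).filter
          (fun x => len S ((g ξ)⁻¹ * x) + R (e ξ) = len S x) = ∅ := by
        apply Finset.filter_eq_empty_iff.2
        intro x hx hx2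
        rw [mem_ball] at hx
        omega
      rw [this]
      simp only [Finset.card_empty, Nat.cast_zero]
      positivity
  have hsum : ∑ ξ ∈ J, (1/2 : ℝ) ^ (e ξ + 2) ≤ 1/2 := by
    have hinj : InjOn e (J : Set (G → ℝ)) := fun a ha b hb hab => he (hJ a ha) (hJ b hb) hab
    have h1 : ∑ ξ ∈ J, (1/2 : ℝ) ^ (e ξ + 2) = ∑ i ∈ J.image e, (1/2 : ℝ) ^ (i + 2) := by
      rw [Finset.sum_image hinj]
    rw [h1]
    have h2 : HasSum (fun i : ℕ => (1/2 : ℝ) ^ (i + 2)) (1/2) := by
      have h3 := (hasSum_geometric_two).mul_left (1/4 : ℝ)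
      have e1 : (fun i : ℕ => (1/2 : ℝ) ^ (i + 2)) = fun i => 1/4 * (1/2) ^ i := by
        funext i; rw [pow_add]; ring
      have e2 : (1/4 : ℝ) * 2 = 1/2 := by norm_num
      rw [e1]; rwa [e2] at h3
    exact sum_le_hasSum _ (fun i _ => by positivity) h2
  have hfinal : (pp h n : ℝ) ≤ pp h N + (1/2) * pp h n := by
    have h1 : pp h n ≤ pp h N + ∑ ξ ∈ J, ((ball h n).filter
          (fun x => len S ((g ξ)⁻¹ * x) + R (e ξ) = len S x)).card :=
      (Finset.card_le_card hsub).trans ((Finset.card_union_le _ _).trans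
        (Nat.add_le_add_left Finset.card_biUnion_le _))
    have h2 : (pp h n : ℝ) ≤ pp h N + ∑ ξ ∈ J, (((ball h n).filter
          (fun x => len S ((g ξ)⁻¹ * x) + R (e ξ) = len S x)).card : ℝ) := by
      exact_mod_cast h1
    refine h2.trans ?_
    have h3 : ∑ ξ ∈ J, (((ball h n).filter
          (fun x => len S ((g ξ)⁻¹ * x) + R (e ξ) = len S x)).card : ℝ) ≤
          (∑ ξ ∈ J, (1/2 : ℝ) ^ (e ξ + 2)) * pp h n := by
      rw [Finset.sum_mul]
      exact Finset.sum_le_sum hcard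
    have h4 : (∑ ξ ∈ J, (1/2 : ℝ) ^ (e ξ + 2)) * pp h n ≤ (1/2) * pp h n :=
      mul_le_mul_of_nonneg_right hsum (by positivity)
    linarith
  have hmono : (pp h N1 : ℝ) ≤ pp h n := by exact_mod_cast pp_mono h hn.le
  linarith

end Pool.Agent.Helper7.Horo
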