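import Pool.Agent.Helper7.Horo.Growth
set_option autoImplicit false

/-! Passage from a growing finite set to growth of balls. -/

namespace Pool.Agent.Helper7.Horo

open Set

variable {G : Type*} [Group G] {S : Finset G}

lemma len_list_prod (h : Gen S) {F : Set G} {K : ℕ} (hF : ∀ g ∈ F, len S g ≤ K) (l : List G)
    (hl : ∀ s ∈ l, s ∈ F) : len S l.prod ≤ K * l.length := by
  induction l with
  | nil => simp [len_one]
  | cons x l ih =>
    have h1 := ih (fun s hs => hl s (List.mem_cons_of_mem _ hs))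
    have h2 := hF x (hl x List.mem_cons_self)
    have h3 := len_mul h x l.prod
    rw [List.prod_cons, List.length_cons, mul_add, mul_one]
    omega

theorem not_countable_of_exp (h : Gen S) (F : Set G) (hF : F.Finite) (a : ℝ) (ha : 1 < a)
    (hgrow : ∀ n : ℕ, a ^ n ≤
      ({g : G | ∃ l : List G, l.length = n ∧ (∀ s ∈ l, s ∈ F) ∧ l.prod = g}.ncard : ℝ)) :
    ¬ (closure (range (bb S)) \ range (bb S)).Countable := by
  classical
  obtain ⟨K, hK1, hK⟩ : ∃ K : ℕ, 1 ≤ K ∧ ∀ g ∈ F, len S g ≤ K := by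
    obtain ⟨K, hK⟩ := (hF.image (len S)).bddAbove
    exact ⟨K + 1, by omega, fun g hg => (hK ⟨g, hg, rfl⟩).trans (Nat.le_succ _)⟩
  have hpp : ∀ n : ℕ, a ^ n ≤ pp h (K * n) := by
    intro n
    refine (hgrow n).trans ?_
    have hsub : {g : G | ∃ l : List G, l.length = n ∧ (∀ s ∈ l, s ∈ F) ∧ l.prod = g} ⊆
        (ball h (K * n) : Set G) := by
      rintro g ⟨l, hl1, hl2, rfl⟩
      rw [Finset.mem_coe, mem_ball, ← hl1]
      exact len_list_prod h hK l hl2
    have h1 := Set.ncard_le_ncard hsub (Finset.finite_toSet _)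
    rw [Set.ncard_coe_finset] at h1
    exact_mod_cast h1
  have ha0 : 0 < a := by linarith
  let lam : ℝ := a ^ ((1 : ℝ) / ((2 * K : ℕ) : ℝ))
  have hK0 : ((2 * K : ℕ) : ℝ) ≠ 0 := by
    have : 2 * K ≠ 0 := by omega
    exact_mod_cast this
  have hlampow : lam ^ (2 * K) = a := by
    show (a ^ ((1 : ℝ) / ((2 * K : ℕ) : ℝ))) ^ (2 * K) = a
    rw [← Real.rpow_natCast, ← Real.rpow_mul ha0.le, one_div, inv_mul_cancel₀ hK0, Real.rpow_one]
  have hlam1 : 1 < lam := by
    apply Real.one_lt_rpow ha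
    positivity
  have hlam0 : 0 < lam := by linarith
  refine not_countable_of_growth h lam hlam1 ?_
  intro C
  have hKlam : 1 < lam ^ K := one_lt_pow₀ hlam1 (by omega)
  obtain ⟨n, hn⟩ := pow_unbounded_of_one_lt C hKlam
  refine ⟨K * n, hn.trans_le ?_⟩
  rw [le_div_iff₀ (by positivity)]
  calc (lam ^ K) ^ n * lam ^ (K * n) = (lam ^ (2 * K)) ^ n := by
        rw [← pow_mul, ← pow_add, ← pow_mul]; congr 1; ring
    _ = a ^ n := by rw [hlampow]
    _ ≤ _ := hpp n

end Pool.Agent.Helper7.Horo
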