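import Pool.Agent.Helper7.Horo.Basic
import Pool.Agent.Helper7.Horo.CB
set_option autoImplicit false

/-! A countable boundary forces virtual surjections onto ℤ of all infinite quotients. -/

namespace Pool.Agent.Helper7.Horo

open Set Filter Topology

variable {G : Type*} [Group G] {S : Finset G}

/-- the action on functions normalised at 1 -/
def act (g : G) (f : G → ℝ) : G → ℝ := fun u => f (g⁻¹ * u) - f g⁻¹

lemma act_continuous (g : G) : Continuous (act g : (G → ℝ) → (G → ℝ)) := by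
  apply continuous_pi
  intro u
  exact (continuous_apply (g⁻¹ * u)).sub (continuous_apply g⁻¹)

lemma act_mul (g h : G) (f : G → ℝ) : act (g * h) f = act g (act h f) := by
  funext u
  simp only [act, mul_inv_rev, mul_assoc]
  ring

lemma act_one (f : G → ℝ) (hf : f 1 = 0) : act 1 f = f := by
  funext u
  simp [act, hf]

lemma act_bb (g x : G) : act g (bb S x) = bb S (g * x) := by
  funext u
  simp only [act, bb, mul_inv_rev, inv_inv, mul_assoc]
  ring

/-- the closure -/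
def XX (S : Finset G) : Set (G → ℝ) := closure (range (bb S))

/-- the boundary -/
def bd (S : Finset G) : Set (G → ℝ) := closure (range (bb S)) \ range (bb S)

lemma act_XX (g : G) {f : G → ℝ} (hf : f ∈ XX S) : act g f ∈ XX S := by
  have : MapsTo (act g) (range (bb S)) (range (bb S)) := by
    rintro _ ⟨x, rfl⟩
    exact ⟨g * x, (act_bb g x).symm⟩
  exact this.closure (act_continuous g) hf

lemma XX_one {f : G → ℝ} (hf : f ∈ XX S) : f 1 = 0 := by
  have hcl : IsClosed {f : G → ℝ | f 1 = 0} := isClosed_eq (continuous_apply 1) continuous_const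
  apply closure_minimal _ hcl hf
  rintro _ ⟨x, rfl⟩
  simp [bb]

lemma act_inv_act (g : G) {f : G → ℝ} (hf : f ∈ XX S) : act g⁻¹ (act g f) = f := by
  rw [← act_mul, inv_mul_cancel, act_one f (XX_one hf)]

lemma act_act_inv (g : G) {f : G → ℝ} (hf : f ∈ XX S) : act g (act g⁻¹ f) = f := by
  rw [← act_mul, mul_inv_cancel, act_one f (XX_one hf)]

lemma act_bd (g : G) {f : G → ℝ} (hf : f ∈ bd S) : act g f ∈ bd S := by
  refine ⟨act_XX g hf.1, ?_⟩
  rintro ⟨x, hx⟩
  apply hf.2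
  refine ⟨g⁻¹ * x, ?_⟩
  rw [← act_bb, hx, act_inv_act g (S := S) hf.1]

lemma XX_ge (h : Gen S) {f : G → ℝ} (hf : f ∈ XX S) (z : G) : -(len S z : ℝ) ≤ f z := by
  have hcl : IsClosed {f : G → ℝ | -(len S z : ℝ) ≤ f z} :=
    isClosed_le continuous_const (continuous_apply z)
  apply closure_minimal _ hcl hf
  rintro _ ⟨x, rfl⟩
  exact bb_ge h x z

lemma XX_lip (h : Gen S) {f : G → ℝ} (hf : f ∈ XX S) (u v : G) : f u - len S v ≤ f (u * v) := by
  have h1 := XX_ge h (act_XX u⁻¹ hf) v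
  simp only [act, inv_inv] at h1
  linarith

lemma XX_int {f : G → ℝ} (hf : f ∈ XX S) (z : G) : ∃ n : ℤ, f z = n := by
  have hcl : IsClosed {f : G → ℝ | f z ∈ range ((↑) : ℤ → ℝ)} :=
    (Int.isClosedEmbedding_coe_real.isClosed_range).preimage (continuous_apply z)
  have h1 : f ∈ {f : G → ℝ | f z ∈ range ((↑) : ℤ → ℝ)} := by
    apply closure_minimal _ hcl hf
    rintro _ ⟨x, rfl⟩
    exact ⟨(len S (z⁻¹ * x) : ℤ) - len S x, by simp [bb]⟩
  obtain ⟨n, hn⟩ := h1
  exact ⟨n, hn.symm⟩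

/-- functions that reach -r on the sphere of radius r -/
def KK (S : Finset G) (r : ℕ) : Set (G → ℝ) := {f | ∃ k : G, len S k = r ∧ f k = -(r : ℝ)}

lemma isClosed_KK (h : Gen S) (r : ℕ) : IsClosed (KK S r) := by
  have : KK S r = ⋃ k ∈ (ball h r : Finset G), {f : G → ℝ | len S k = r ∧ f k = -(r : ℝ)} := by
    ext f
    simp only [KK, mem_ofPred_eq, mem_iUnion, exists_prop]
    constructor
    · rintro ⟨k, hk1, hk2⟩
      exact ⟨k, (mem_ball h).2 hk1.le, hk1, hk2⟩
    · rintro ⟨k, _, hk1, hk2⟩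
      exact ⟨k, hk1, hk2⟩
  rw [this]
  apply isClosed_biUnion_finset
  intro k _
  by_cases hk : len S k = r
  · simp only [hk, true_and]
    exact isClosed_eq (continuous_apply k) continuous_const
  · simp [hk]

lemma bd_eq (h : Gen S) : bd S = XX S ∩ ⋂ r : ℕ, KK S r := by
  ext f
  constructor
  · intro hf
    refine ⟨hf.1, mem_iInter.2 (fun r => ?_)⟩
    exact horo_down h hf r
  · rintro ⟨hf1, hf2⟩
    refine ⟨hf1, ?_⟩
    rintro ⟨x, rfl⟩
    obtain ⟨k, _, hk⟩ := mem_iInter.1 hf2 (len S x + 1)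
    have := bb_ge' h x k
    rw [hk] at this
    push_cast at this
    linarith

lemma bd_compact (h : Gen S) : IsCompact (bd S) := by
  rw [bd_eq h]
  exact (closure_compact h).inter_right (isClosed_iInter (fun r => isClosed_KK h r))

theorem quotient_criterion (h : Gen S) (N : Subgroup G) [N.Normal] [Infinite (G ⧸ N)]
    (hN : ∀ H : Subgroup (G ⧸ N), H.FiniteIndex → ∀ f : H →* Multiplicative ℤ, f = 1) :
    ¬ (bd S).Countable := by
  classical
  intro hc
  -- far away minimal elements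
  have hmin : ∀ R : ℕ, ∃ x : G, R ≤ len S x ∧ ∀ c ∈ N, len S x ≤ len S (c⁻¹ * x) := by
    intro R
    have hfin : ((fun x : G => (x : G ⧸ N)) '' {x : G | len S x ≤ R}).Finite :=
      (ball_finite h R).image _
    obtain ⟨q, hq⟩ := hfin.exists_notMem
    obtain ⟨g, rfl⟩ := QuotientGroup.mk_surjective q
    have hex : ∃ n : ℕ, ∃ x : G, (x : G ⧸ N) = (g : G ⧸ N) ∧ len S x = n := ⟨_, g, rfl, rfl⟩
    obtain ⟨x, hx1, hx2⟩ := Nat.find_spec hex
    refine ⟨x, ?_, ?_⟩
    · by_contra hlt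
      push Not at hlt
      exact hq ⟨x, hlt.le, hx1⟩
    · intro c hc
      rw [hx2]
      apply Nat.find_min' hex
      refine ⟨c⁻¹ * x, ?_, rfl⟩
      rw [← hx1, QuotientGroup.mk_mul, QuotientGroup.mk_inv, (QuotientGroup.eq_one_iff c).2 hc,
        inv_one, one_mul]
  choose xs hxs1 hxs2 using hmin
  -- the closed set V
  let V : Set (G → ℝ) := {f | ∀ c ∈ N, 0 ≤ f c}
  have hV : IsClosed V := by
    have : V = ⋂ c ∈ (N : Set G), {f : G → ℝ | 0 ≤ f c} := by ext f; simp [V]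
    rw [this]
    exact isClosed_biInter (fun c _ => isClosed_le continuous_const (continuous_apply c))
  have hVne : (bd S ∩ V).Nonempty := by
    let u : Ultrafilter ℕ := Filter.hyperfilter ℕ
    have hu : (u : Filter ℕ) ≤ atTop := by
      rw [← Nat.cofinite_eq_atTop]; exact Filter.hyperfilter_le_cofinite
    obtain ⟨ζ, hζ1, hζ2⟩ := (closure_compact h).ultrafilter_le_nhds
      (u.map (fun n => bb S (xs n))) (by
        rw [le_principal_iff]
        show (fun n => bb S (xs n)) ⁻¹' closure (range (bb S)) ∈ u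
        have : (fun n => bb S (xs n)) ⁻¹' closure (range (bb S)) = univ := by
          ext n; simp only [mem_preimage, mem_univ, iff_true]; exact subset_closure ⟨_, rfl⟩
        rw [this]; exact univ_mem)
    have htend : Tendsto (fun n => bb S (xs n)) u (𝓝 ζ) := hζ2
    refine ⟨ζ, ?_, ?_⟩
    · rw [bd_eq h]
      refine ⟨hζ1, mem_iInter.2 (fun r => ?_)⟩
      apply (isClosed_KK h r).mem_of_tendsto htend
      have h1 : ∀ᶠ n in atTop, bb S (xs n) ∈ KK S r := by
        filter_upwards [eventually_ge_atTop r] with n hn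
        exact exists_down h (xs n) (hn.trans (hxs1 n))
      exact hu h1
    · apply hV.mem_of_tendsto htend
      filter_upwards with n c hc
      have h1 : (len S (xs n) : ℝ) ≤ len S (c⁻¹ * xs n) := by exact_mod_cast hxs2 n c hc
      simp only [bb]; linarith
  obtain ⟨Y, hYK, hYinv, hYV, hYfin⟩ := exists_minimal_finite (act (G := G)) act_continuous (bd S) V
    (bd_compact h) hc (fun g x hx => act_bd g hx) (by
      intro g x hx y hy hxy
      rw [← act_inv_act g (S := S) hx.1, hxy, act_inv_act g (S := S) hy.1]) hV hVne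
  obtain ⟨ζ, hζY, hζV⟩ := hYV
  have hζbd : ζ ∈ bd S := hYK hζY
  have hζX : ζ ∈ XX S := hζbd.1
  -- returns
  have hret : ∀ y : G, ∃ c ∈ N, act (y * c)⁻¹ ζ ∈ Y ∩ V := by
    intro y
    have hlow : ∀ c ∈ N, -(len S y : ℝ) ≤ ζ (y * c) := by
      intro c hc
      have hc' : y * c * y⁻¹ ∈ N := (inferInstance : N.Normal).conj_mem c hc y
      have h1 := XX_lip h hζX (y * c * y⁻¹) y
      rw [inv_mul_cancel_right] at h1
      have h2 := hζV _ hc'
      linarith
    obtain ⟨n, ⟨c, hcN, hcn⟩, hnmin⟩ := Int.exists_least_of_bdd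
      (P := fun n : ℤ => ∃ c ∈ N, ζ (y * c) = n)
      ⟨-(len S y : ℤ), by
        rintro n ⟨c, hcN, hcn⟩
        have h1 := hlow c hcN
        rw [hcn] at h1
        exact_mod_cast h1⟩ (by
        obtain ⟨n, hn⟩ := XX_int hζX (y * 1)
        exact ⟨n, 1, N.one_mem, hn⟩)
    refine ⟨c, hcN, hYinv _ _ hζY, ?_⟩
    intro c' hc'
    simp only [act, inv_inv]
    obtain ⟨m, hm⟩ := XX_int hζX (y * c * c')
    have h1 := hnmin m ⟨c * c', N.mul_mem hcN hc', by rw [← hm, mul_assoc]⟩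
    rw [hm, hcn]
    have : (n : ℝ) ≤ m := by exact_mod_cast h1
    linarith
  choose cy hcyN hcyF using hret
  let St : Subgroup G :=
    { carrier := {g | act g ζ = ζ}
      one_mem' := act_one ζ (XX_one hζX)
      mul_mem' := by
        intro a b ha hb
        show act (a * b) ζ = ζ
        rw [act_mul]
        have hb' : act b ζ = ζ := hb
        have ha' : act a ζ = ζ := ha
        rw [hb', ha']
      inv_mem' := by
        intro a ha
        show act a⁻¹ ζ = ζ
        have ha' : act a ζ = ζ := ha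
        conv_lhs => rw [← ha']
        exact act_inv_act a hζX }
  have hStmem : ∀ g : G, g ∈ St ↔ act g ζ = ζ := fun g => Iff.rfl
  have hhom : ∀ σ ∈ St, ∀ u, ζ (σ * u) = ζ σ + ζ u := by
    intro σ hσ u
    have h1 : act σ⁻¹ ζ = ζ := (hStmem _).1 (St.inv_mem hσ)
    have h2 := congrFun h1 u
    simp only [act, inv_inv] at h2
    linarith
  -- two elements with the same return function
  have hsame : ∀ y y' : G, act (y * cy y)⁻¹ ζ = act (y' * cy y')⁻¹ ζ →
      (y * cy y) * (y' * cy y')⁻¹ ∈ St := by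
    intro y y' heq
    rw [hStmem, act_mul, ← heq, act_act_inv (y * cy y) hζX]
  -- finite index
  let Hq : Subgroup (G ⧸ N) := St.map (QuotientGroup.mk' N)
  have hfinF : Finite (Y ∩ V : Set (G → ℝ)) := hYfin
  have hHq : Hq.FiniteIndex := by
    have hinj : Function.Injective (fun q : (G ⧸ N) ⧸ Hq =>
        (⟨act ((q.out.out)⁻¹ * cy (q.out.out)⁻¹)⁻¹ ζ, hcyF _⟩ : (Y ∩ V : Set (G → ℝ)))) := by
      intro q q' hqq
      have h1 := hsame _ _ (congrArg Subtype.val hqq)
      have h2 : ((q.out.out)⁻¹ * cy (q.out.out)⁻¹) * ((q'.out.out)⁻¹ * cy (q'.out.out)⁻¹)⁻¹ ∈ St := h1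
      have h3 : (q.out)⁻¹ * q'.out ∈ Hq := by
        refine ⟨_, h2, ?_⟩
        rw [QuotientGroup.mk'_apply, mul_inv_rev, inv_inv]
        simp only [QuotientGroup.mk_mul, QuotientGroup.mk_inv]
        rw [(QuotientGroup.eq_one_iff _).2 (hcyN _), (QuotientGroup.eq_one_iff _).2 (hcyN _)]
        rw [show ((q.out.out : G) : G ⧸ N) = q.out from Quotient.out_eq' _,
          show ((q'.out.out : G) : G ⧸ N) = q'.out from Quotient.out_eq' _]
        simp only [mul_one, inv_one, one_mul]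
      have h4 : ((q.out : G ⧸ N) : (G ⧸ N) ⧸ Hq) = ((q'.out : G ⧸ N) : (G ⧸ N) ⧸ Hq) :=
        QuotientGroup.eq.2 h3
      rwa [show ((q.out : G ⧸ N) : (G ⧸ N) ⧸ Hq) = q from Quotient.out_eq' _,
        show ((q'.out : G ⧸ N) : (G ⧸ N) ⧸ Hq) = q' from Quotient.out_eq' _] at h4
    have : Finite ((G ⧸ N) ⧸ Hq) := Finite.of_injective _ hinj
    exact Subgroup.finiteIndex_of_finite_quotient
  -- values on St
  choose zi hzi using fun z => XX_int hζX z
  have hStN : ∀ σ ∈ St, σ ∈ N → zi σ = 0 := by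
    intro σ hσ hσN
    have h1 : 0 ≤ ζ σ := hζV σ hσN
    have h2 : 0 ≤ ζ σ⁻¹ := hζV _ (N.inv_mem hσN)
    have h3 := hhom σ hσ σ⁻¹
    rw [mul_inv_cancel, XX_one hζX] at h3
    have h4 : ζ σ = 0 := by linarith
    rw [hzi σ] at h4
    exact_mod_cast h4
  have hziadd : ∀ σ ∈ St, ∀ u, zi (σ * u) = zi σ + zi u := by
    intro σ hσ u
    have := hhom σ hσ u
    rw [hzi, hzi σ, hzi u] at this
    exact_mod_cast this
  have hzicongr : ∀ σ ∈ St, ∀ τ ∈ St, (σ : G ⧸ N) = (τ : G ⧸ N) → zi σ = zi τ := by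
    intro σ hσ τ hτ heq
    have h1 : σ⁻¹ * τ ∈ N := QuotientGroup.eq.1 heq
    have h2 := hStN _ (St.mul_mem (St.inv_mem hσ) hτ) h1
    have h3 := hziadd σ hσ (σ⁻¹ * τ)
    rw [mul_inv_cancel_left, h2, add_zero] at h3
    exact h3.symm
  have hrep : ∀ p : Hq, ∃ σ : G, σ ∈ St ∧ (σ : G ⧸ N) = (p : G ⧸ N) := by
    rintro ⟨p, σ, hσ, hp⟩
    exact ⟨σ, hσ, hp⟩
  choose rep hrep1 hrep2 using hrep
  let ψ : Hq →* Multiplicative ℤ :=
    { toFun := fun p => Multiplicative.ofAdd (zi (rep p))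
      map_one' := by
        have h1 : zi (rep 1) = 0 := by
          apply hStN _ (hrep1 1)
          rw [← QuotientGroup.eq_one_iff, hrep2 1]; rfl
        rw [h1]; rfl
      map_mul' := by
        intro p q
        have h1 : zi (rep (p * q)) = zi (rep p * rep q) := by
          apply hzicongr _ (hrep1 _) _ (St.mul_mem (hrep1 _) (hrep1 _))
          rw [hrep2, QuotientGroup.mk_mul, hrep2, hrep2]; rfl
        rw [h1, hziadd _ (hrep1 p)]; rfl }
  have hψ := hN Hq hHq ψ
  have hzero : ∀ σ ∈ St, ζ σ = 0 := by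
    intro σ hσ
    have hp : (σ : G ⧸ N) ∈ Hq := ⟨σ, hσ, rfl⟩
    have h1 : ψ ⟨σ, hp⟩ = 1 := by rw [hψ]; rfl
    have h2 : zi (rep ⟨σ, hp⟩) = 0 := by
      have h3 : Multiplicative.ofAdd (zi (rep ⟨σ, hp⟩)) = Multiplicative.ofAdd (0 : ℤ) := h1
      exact Multiplicative.ofAdd.injective h3
    have h3 : zi σ = zi (rep ⟨σ, hp⟩) :=
      hzicongr σ hσ (rep ⟨σ, hp⟩) (hrep1 _) (hrep2 ⟨(σ : G ⧸ N), hp⟩).symm
    rw [hzi σ, h3, h2]; simp
  -- bounded below
  have hY' : ∀ f : G → ℝ, ∃ y : G, (∃ g, act g⁻¹ ζ = f) → act y⁻¹ ζ = f := by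
    intro f
    by_cases hf : ∃ g, act g⁻¹ ζ = f
    · obtain ⟨g, hg⟩ := hf; exact ⟨g, fun _ => hg⟩
    · exact ⟨1, fun h' => absurd h' hf⟩
  choose yf hyf using hY'
  obtain ⟨M, hM⟩ := (hYfin.image (fun f => len S (yf f))).bddAbove
  have hlow : ∀ g : G, -(M : ℝ) ≤ ζ g := by
    intro g
    set f := act (g * cy g)⁻¹ ζ with hf
    have hfF : f ∈ Y ∩ V := hcyF g
    have h1 : act (yf f)⁻¹ ζ = f := hyf f ⟨_, rfl⟩
    have hσ : (g * cy g) * (yf f)⁻¹ ∈ St := by
      rw [hStmem, act_mul, h1, hf, act_act_inv (g * cy g) hζX]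
    have h2 : g = ((g * cy g) * (yf f)⁻¹) * (yf f * (cy g)⁻¹) := by group
    have h3 := hhom _ hσ (yf f * (cy g)⁻¹)
    rw [← h2, hzero _ hσ, zero_add] at h3
    have hcN : yf f * (cy g)⁻¹ * (yf f)⁻¹ ∈ N :=
      (inferInstance : N.Normal).conj_mem _ (N.inv_mem (hcyN g)) _
    have h4 := XX_lip h hζX (yf f * (cy g)⁻¹ * (yf f)⁻¹) (yf f)
    rw [inv_mul_cancel_right] at h4
    have h5 := hζV _ hcN
    have h6 : len S (yf f) ≤ M := hM ⟨f, hfF, rfl⟩
    have h7 : (len S (yf f) : ℝ) ≤ M := by exact_mod_cast h6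
    rw [h3]
    linarith
  obtain ⟨k, _, hk⟩ := horo_down h hζbd (M + 1)
  have := hlow k
  rw [hk] at this
  push_cast at this
  linarith

end Pool.Agent.Helper7.Horo
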