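import Pool.Agent.Helper7.Horo.Basic
set_option autoImplicit false

/-! Virtually abelian groups: paths, visited cosets, insertion of loops. -/

namespace Pool.Agent.Helper7.Horo

open Set Filter Topology

variable {G : Type*} [Group G]

section paths

variable (A : Subgroup G) [A.Normal]

/-- a path with its visited cosets recorded -/
def dec : G → List G → List ((G ⧸ A) × G)
  | _, [] => []
  | z, s :: l => ((z : G ⧸ A), s) :: dec (z * s) l

/-- the set of cosets visited by a path -/
def vis : G → List G → Set (G ⧸ A)
  | z, [] => {(z : G ⧸ A)}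
  | z, s :: l => insert (z : G ⧸ A) (vis (z * s) l)

lemma mk_mul_congr {z z' : G} (h : (z : G ⧸ A) = z') (s : G) :
    ((z * s : G) : G ⧸ A) = ((z' * s : G) : G ⧸ A) := by
  rw [QuotientGroup.mk_mul, QuotientGroup.mk_mul, h]

lemma dec_congr {z z' : G} (h : (z : G ⧸ A) = z') (l : List G) : dec A z l = dec A z' l := by
  induction l generalizing z z' with
  | nil => rfl
  | cons s l ih =>
    simp only [dec]
    rw [h, ih (mk_mul_congr A h s)]

lemma vis_congr {z z' : G} (h : (z : G ⧸ A) = z') (l : List G) : vis A z l = vis A z' l := by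
  induction l generalizing z z' with
  | nil => simp only [vis, h]
  | cons s l ih =>
    simp only [vis]
    rw [h, ih (mk_mul_congr A h s)]

lemma start_mem_vis (z : G) (l : List G) : (z : G ⧸ A) ∈ vis A z l := by
  cases l <;> simp [vis]

lemma vis_append (z : G) (l l' : List G) :
    vis A z (l ++ l') = vis A z l ∪ vis A (z * l.prod) l' := by
  induction l generalizing z with
  | nil =>
    simp only [List.nil_append, vis, List.prod_nil, mul_one]
    symm
    apply union_eq_self_of_subset_left
    rw [singleton_subset_iff]
    exact start_mem_vis A z l'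
  | cons s l ih =>
    simp only [List.cons_append, vis, List.prod_cons, ih, mul_assoc, insert_union]

lemma exists_split_of_mem_vis {z : G} {l : List G} {q : G ⧸ A} (h : q ∈ vis A z l) :
    ∃ l1 l2, l = l1 ++ l2 ∧ ((z * l1.prod : G) : G ⧸ A) = q := by
  induction l generalizing z with
  | nil =>
    simp only [vis, mem_singleton_iff] at h
    exact ⟨[], [], rfl, by rw [h]; simp⟩
  | cons s l ih =>
    simp only [vis, mem_insert_iff] at h
    rcases h with h | h
    · exact ⟨[], s :: l, rfl, by rw [h]; simp⟩
    · obtain ⟨l1, l2, h1, h2⟩ := ih h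
      refine ⟨s :: l1, l2, by rw [h1]; rfl, ?_⟩
      rw [List.prod_cons, ← mul_assoc]; exact h2

lemma dec_mem_snd {S : Set G} {z : G} {l : List G} (hl : ∀ s ∈ l, s ∈ S) :
    ∀ x ∈ dec A z l, x.2 ∈ S := by
  induction l generalizing z with
  | nil => simp [dec]
  | cons s l ih =>
    intro x hx
    simp only [dec, List.mem_cons] at hx
    rcases hx with rfl | hx
    · exact hl s List.mem_cons_self
    · exact ih (fun t ht => hl t (List.mem_cons_of_mem _ ht)) x hx

/-- a is a product of values of closed loops through cosets in C, of total length n -/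
inductive Ins (S : Set G) (C : Set (G ⧸ A)) : G → ℕ → Prop
  | one : Ins S C 1 0
  | loop (a : G) (n : ℕ) (g : G) (u : List G) : Ins S C a n → (∀ s ∈ u, s ∈ S) →
      ((g * u.prod : G) : G ⧸ A) = (g : G ⧸ A) → vis A g u ⊆ C →
      Ins S C (a * (g * u.prod * g⁻¹)) (n + u.length)

variable (hcomm : ∀ a ∈ A, ∀ b ∈ A, a * b = b * a)
include hcomm

lemma loop_conj {g z u : G} (hu : ((g * u : G) : G ⧸ A) = (g : G ⧸ A))
    (hz : (z : G ⧸ A) = (g : G ⧸ A)) : z * u = (g * u * g⁻¹) * z := by
  have huA : u ∈ A := by
    have h1 := QuotientGroup.eq.1 hu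
    have h2 : (g * u)⁻¹ * g = u⁻¹ := by group
    rw [h2] at h1
    exact A.inv_mem_iff.1 h1
  have hzA : g⁻¹ * z ∈ A := QuotientGroup.eq.1 hz.symm
  have h3 := hcomm _ hzA _ huA
  calc z * u = g * ((g⁻¹ * z) * u) := by group
    _ = g * (u * (g⁻¹ * z)) := by rw [h3]
    _ = (g * u * g⁻¹) * z := by group

lemma absorb {S : Set G} {C : Set (G ⧸ A)} {a : G} {n : ℕ} (h : Ins A S C a n) :
    ∀ (z : G) (l : List G), (∀ s ∈ l, s ∈ S) → vis A z l = C →
      ∃ l' : List G, (∀ s ∈ l', s ∈ S) ∧ l'.length = l.length + n ∧
        z * l'.prod = a * (z * l.prod) ∧ vis A z l' = C := by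
  induction h with
  | one => intro z l hl hv; exact ⟨l, hl, by simp, by simp, hv⟩
  | loop a n g u _ hu hcl hvu ih =>
    intro z l hl hv
    have hgC : (g : G ⧸ A) ∈ vis A z l := by rw [hv]; exact hvu (start_mem_vis A g u)
    obtain ⟨l1, l2, rfl, hq⟩ := exists_split_of_mem_vis A hgC
    have hl1 : ∀ s ∈ l1, s ∈ S := fun s hs => hl s (List.mem_append.2 (Or.inl hs))
    have hl2 : ∀ s ∈ l2, s ∈ S := fun s hs => hl s (List.mem_append.2 (Or.inr hs))
    have hkey := loop_conj A hcomm hcl hq
    have hv' : vis A z (l1 ++ u ++ l2) = C := by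
      rw [vis_append, vis_append, List.prod_append, vis_congr A hq u, ← mul_assoc,
        vis_congr A (z := z * l1.prod * u.prod) (z' := z * l1.prod) ?_ l2]
      · rw [vis_append] at hv
        apply Subset.antisymm
        · rintro x ((hx | hx) | hx)
          · rw [← hv]; exact Or.inl hx
          · exact hvu hx
          · rw [← hv]; exact Or.inr hx
        · rw [← hv]
          rintro x (hx | hx)
          · exact Or.inl (Or.inl hx)
          · exact Or.inr hx
      · rw [mk_mul_congr A hq u.prod, hcl, hq]
    obtain ⟨l', h1, h2, h3, h4⟩ := ih z (l1 ++ u ++ l2) (by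
      intro s hs
      rcases List.mem_append.1 hs with hs | hs
      · rcases List.mem_append.1 hs with hs | hs
        · exact hl1 s hs
        · exact hu s hs
      · exact hl2 s hs) hv'
    refine ⟨l', h1, ?_, ?_, h4⟩
    · rw [h2]; simp only [List.length_append]; omega
    · rw [h3]
      simp only [List.prod_append]
      rw [mul_assoc a, ← mul_assoc z, ← mul_assoc z, hkey]
      simp only [mul_assoc]

lemma higman_insert {S : Set G} {C : Set (G ⧸ A)} (w' : List G) :
    ∀ (g : G) (u w : List G), (∀ s ∈ u, s ∈ S) → (∀ s ∈ w', s ∈ S) →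
      List.Sublist (dec A g w) (dec A (g * u.prod) w') →
      ((g * w.prod : G) : G ⧸ A) = ((g * u.prod * w'.prod : G) : G ⧸ A) →
      vis A g (u ++ w') ⊆ C →
      ∃ (a : G) (n : ℕ), Ins A S C a n ∧ n + w.length = u.length + w'.length ∧
        g * u.prod * w'.prod = a * (g * w.prod) := by
  induction w' with
  | nil =>
    intro g u w hu _ hsub hend hvis
    have hw : w = [] := by
      cases w with
      | nil => rfl
      | cons s w => simp [dec] at hsub
    subst hw
    simp only [List.prod_nil, mul_one, List.append_nil] at hend hvis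
    refine ⟨1 * (g * u.prod * g⁻¹), 0 + u.length,
      Ins.loop 1 0 g u Ins.one hu hend.symm hvis, by simp, ?_⟩
    simp
  | cons s w1' ih =>
    intro g u w hu hw' hsub hend hvis
    simp only [dec] at hsub
    rw [List.sublist_cons_iff] at hsub
    have hw1' : ∀ t ∈ w1', t ∈ S := fun t ht => hw' t (List.mem_cons_of_mem _ ht)
    have hs : s ∈ S := hw' s List.mem_cons_self
    rcases hsub with hsub | ⟨r, hr, hsub⟩
    · have := ih g (u ++ [s]) w (by
        intro t ht
        rcases List.mem_append.1 ht with ht | ht
        · exact hu t ht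
        · rw [List.mem_singleton] at ht; rw [ht]; exact hs) hw1' (by
          rw [List.prod_append, List.prod_singleton, ← mul_assoc]; exact hsub) (by
          rw [hend, List.prod_append, List.prod_singleton, List.prod_cons]
          simp only [mul_assoc]) (by
          rw [List.append_assoc]; exact hvis)
      obtain ⟨a, n, h1, h2, h3⟩ := this
      refine ⟨a, n, h1, ?_, ?_⟩
      · rw [h2]; simp only [List.length_append, List.length_cons, List.length_nil]; omega
      · rw [← h3, List.prod_append, List.prod_singleton, List.prod_cons]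
        simp only [mul_assoc]
    · cases w with
      | nil => simp [dec] at hr
      | cons s2 w1 =>
        simp only [dec, List.cons.injEq, Prod.mk.injEq] at hr
        obtain ⟨⟨hg, rfl⟩, hr2⟩ := hr
        have hgs : ((g * u.prod * s2 : G) : G ⧸ A) = ((g * s2 : G) : G ⧸ A) :=
          (mk_mul_congr A hg s2).symm
        have := ih (g * u.prod * s2) [] w1 (by simp) hw1' (by
          rw [List.prod_nil, mul_one, dec_congr A hgs, hr2]; exact hsub) (by
          rw [mk_mul_congr A hgs, List.prod_nil, mul_one]
          rw [List.prod_cons, List.prod_cons, ← mul_assoc, ← mul_assoc] at hend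
          exact hend) (by
          rw [vis_append] at hvis
          simp only [vis, List.nil_append] at hvis ⊢
          intro x hx
          exact hvis (Or.inr (Or.inr hx)))
        obtain ⟨a1, n1, h1, h2, h3⟩ := this
        rw [vis_append] at hvis
        refine ⟨a1 * (g * u.prod * g⁻¹), n1 + u.length,
          Ins.loop a1 n1 g u h1 hu hg.symm (fun x hx => hvis (Or.inl hx)), ?_, ?_⟩
        · simp only [List.length_cons, List.length_nil] at h2 ⊢; omega
        · rw [List.prod_nil, mul_one] at h3
          rw [List.prod_cons, List.prod_cons, ← mul_assoc (g * u.prod) s2, h3]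
          group

end paths

end Pool.Agent.Helper7.Horo
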