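import Pool.Agent.Helper7.Horo.VAb
set_option autoImplicit false

/-! Virtually abelian groups: the boundary is countable. -/

namespace Pool.Agent.Helper7.Horo

open Set Filter Topology

/-- lower sets for the subword order over a finite alphabet are given by finitely many
forbidden subwords (Higman) -/
lemma exists_forbidden {α : Type*} (s : Set α) (hs : s.Finite) (I : Set (List α))
    (hI : ∀ w ∈ I, ∀ w', List.Sublist w' w → w' ∈ I) :
    ∃ T : Finset (List α), ∀ w : List α, (∀ x ∈ w, x ∈ s) →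
      (w ∈ I ↔ ∀ t ∈ T, ¬ List.Sublist t w) := by
  classical
  let D : Set (List α) := {l | ∀ x, x ∈ l → x ∈ s}
  have hD : D.PartiallyWellOrderedOn (List.SublistForall₂ Eq) :=
    Set.PartiallyWellOrderedOn.partiallyWellOrderedOn_sublistForall₂ Eq
      hs.partiallyWellOrderedOn
  have hiff : ∀ l l' : List α, List.SublistForall₂ Eq l l' ↔ List.Sublist l l' := by
    intro l l'
    rw [List.sublistForall₂_iff]
    constructor
    · rintro ⟨l1, h1, h2⟩
      rw [List.forall₂_eq_eq_eq] at h1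
      rw [h1]; exact h2
    · intro h
      exact ⟨l, by rw [List.forall₂_eq_eq_eq], h⟩
  let M : Set (List α) := {w | w ∈ D ∧ w ∉ I ∧ ∀ w', List.Sublist w' w → w' ∉ I → w' = w}
  have hM : M.Finite := by
    apply IsAntichain.finite_of_partiallyWellOrderedOn (r := List.SublistForall₂ Eq)
    · intro a ha b hb hab hr
      rw [hiff] at hr
      exact hab (hb.2.2 a hr ha.2.1)
    · exact hD.mono (fun w hw => hw.1)
  refine ⟨hM.toFinset, fun w hw => ⟨?_, ?_⟩⟩
  · intro hwI t ht hsub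
    rw [Set.Finite.mem_toFinset] at ht
    exact ht.2.1 (hI w hwI t hsub)
  · intro h
    by_contra hwI
    -- a minimal element below w
    have hex : ∃ n : ℕ, ∃ t : List α, List.Sublist t w ∧ t ∉ I ∧ t.length = n :=
      ⟨w.length, w, List.Sublist.refl w, hwI, rfl⟩
    obtain ⟨t, ht1, ht2, ht3⟩ := Nat.find_spec hex
    apply h t _ ht1
    rw [Set.Finite.mem_toFinset]
    refine ⟨fun x hx => hw x (ht1.subset hx), ht2, ?_⟩
    intro w' hw' hw'I
    apply List.Sublist.eq_of_length_le hw'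
    rw [ht3]
    exact Nat.find_min' hex ⟨w', hw'.trans ht1, hw'I, rfl⟩

variable {G : Type*} [Group G] {S : Finset G}

/-- the data set attached to an ultrafilter and a set of cosets -/
def TT (A : Subgroup G) [A.Normal] (S : Finset G) (𝒰 : Ultrafilter G) (C : Set (G ⧸ A)) :
    Set (G × ℤ) :=
  {zk | ∀ᶠ x in (𝒰 : Filter G), ∃ l : List G, (∀ s ∈ l, s ∈ (S : Set G)) ∧ vis A zk.1 l = C ∧
    zk.1 * l.prod = x ∧ (l.length : ℤ) ≤ len S x + zk.2}

/-- the explicit description of such sets -/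
def Theta (A : Subgroup G) [A.Normal] (S : Finset G) (C : Set (G ⧸ A))
    (d : (G × ℤ) × (G ⧸ A) × Finset (List ((G ⧸ A) × G))) : Set (G × ℤ) :=
  {zk | ∃ w : List G, (∀ s ∈ w, s ∈ (S : Set G)) ∧ vis A d.1.1 w = C ∧
    (∀ t ∈ d.2.2, ¬ List.Sublist t (dec A d.1.1 w)) ∧
    ((d.1.1 * w.prod : G) : G ⧸ A) = d.2.1 ∧
    ∃ l : List G, (∀ s ∈ l, s ∈ (S : Set G)) ∧ vis A zk.1 l = C ∧
      zk.1 * l.prod = d.1.1 * w.prod ∧ (l.length : ℤ) ≤ w.length - d.1.2 + zk.2}

variable (A : Subgroup G) [A.Normal] [Finite (G ⧸ A)] (hcomm : ∀ a ∈ A, ∀ b ∈ A, a * b = b * a)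
include hcomm

lemma TT_eq (h : Gen S) (𝒰 : Ultrafilter G) (C : Set (G ⧸ A)) :
    TT A S 𝒰 C = ∅ ∨ ∃ d, TT A S 𝒰 C = Theta A S C d := by
  classical
  by_cases hne : TT A S 𝒰 C = ∅
  · exact Or.inl hne
  right
  obtain ⟨⟨z0, k1⟩, hzk⟩ := Set.nonempty_iff_ne_empty.2 hne
  -- minimal k0
  have hbdd : ∀ k : ℤ, (z0, k) ∈ TT A S 𝒰 C → -(len S z0 : ℤ) ≤ k := by
    intro k hk
    obtain ⟨x, l, hl, _, hx, hle⟩ := Filter.Eventually.exists (f := (𝒰 : Filter G)) hk
    have h1 : len S (z0⁻¹ * x) ≤ l.length :=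
      len_le (fun s hs => hl s hs) (by rw [← hx]; group)
    have h2 : len S x ≤ len S z0 + len S (z0⁻¹ * x) := by
      have := len_mul h z0 (z0⁻¹ * x)
      rwa [mul_inv_cancel_left] at this
    simp only at hle
    omega
  obtain ⟨k0, hk0, hk0min⟩ := Int.exists_least_of_bdd (P := fun k => (z0, k) ∈ TT A S 𝒰 C)
    ⟨_, hbdd⟩ ⟨k1, hzk⟩
  -- optimal paths
  have hopt : ∀ᶠ x in (𝒰 : Filter G), ∃ l : List G, (∀ s ∈ l, s ∈ (S : Set G)) ∧
      vis A z0 l = C ∧ z0 * l.prod = x ∧ (l.length : ℤ) = len S x + k0 := by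
    have h1 : (z0, k0 - 1) ∉ TT A S 𝒰 C := by
      intro hh
      have := hk0min _ hh
      omega
    have h2 := (Ultrafilter.eventually_not (f := 𝒰)).2 h1
    filter_upwards [hk0, h2] with x hx1 hx2
    obtain ⟨l, hl1, hl2, hl3, hl4⟩ := hx1
    refine ⟨l, hl1, hl2, hl3, ?_⟩
    by_contra hne'
    apply hx2
    refine ⟨l, hl1, hl2, hl3, ?_⟩
    have hl4' : (l.length : ℤ) ≤ len S x + k0 := hl4
    show (l.length : ℤ) ≤ len S x + (k0 - 1)
    omega
  obtain ⟨P, hP⟩ := hopt.choice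
  -- end coset
  obtain ⟨q0, hq0⟩ : ∃ q0 : G ⧸ A, ∀ᶠ x : G in (𝒰 : Filter G), (x : G ⧸ A) = q0 := by
    obtain ⟨q, hq⟩ := Ultrafilter.eq_pure_of_finite (𝒰.map (fun x : G => (x : G ⧸ A)))
    refine ⟨q, ?_⟩
    have h1 : ({q} : Set (G ⧸ A)) ∈ 𝒰.map (fun x : G => (x : G ⧸ A)) := by
      rw [hq]; exact Ultrafilter.mem_pure.2 rfl
    exact h1
  let I : Set (List ((G ⧸ A) × G)) := {w | ∀ᶠ x in (𝒰 : Filter G), List.Sublist w (dec A z0 (P x))}
  have hI : ∀ w ∈ I, ∀ w', List.Sublist w' w → w' ∈ I := by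
    intro w hw w' hw'
    filter_upwards [hw] with x hx
    exact hw'.trans hx
  have hfin : (Prod.snd ⁻¹' (S : Set G) : Set ((G ⧸ A) × G)).Finite := by
    have : (Prod.snd ⁻¹' (S : Set G) : Set ((G ⧸ A) × G)) = univ ×ˢ (S : Set G) := by
      ext x; simp
    rw [this]
    exact Set.finite_univ.prod S.finite_toSet
  obtain ⟨T, hT⟩ := exists_forbidden _ hfin I hI
  refine ⟨((z0, k0), q0, T), ?_⟩
  ext ⟨z, k⟩
  constructor
  · intro hz
    have hTev : ∀ᶠ x in (𝒰 : Filter G), ∀ t ∈ T, ¬ List.Sublist t (dec A z0 (P x)) := by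
      rw [Filter.eventually_all_finset]
      intro t ht
      rw [Ultrafilter.eventually_not]
      intro hcon
      -- t ∈ I
      have htI : t ∈ I := hcon
      have hex : ∃ x, (∀ s ∈ P x, s ∈ (S : Set G)) ∧ List.Sublist t (dec A z0 (P x)) :=
        ((hP.and hcon).exists).imp (fun x hx => ⟨hx.1.1, hx.2⟩)
      obtain ⟨x, hx1, hx2⟩ := hex
      have := (hT t (fun y hy => dec_mem_snd A hx1 y (hx2.subset hy))).1 htI t ht
      exact this (List.Sublist.refl t)
    obtain ⟨x, ⟨⟨hx1, hx2, hx3, hx4⟩, hxT⟩, hxq, l, hl1, hl2, hl3, hl4⟩ :=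
      ((hP.and hTev).and (hq0.and hz)).exists
    refine ⟨P x, hx1, hx2, hxT, ?_, l, hl1, hl2, ?_, ?_⟩
    · show ((z0 * (P x).prod : G) : G ⧸ A) = q0
      rw [hx3, hxq]
    · show z * l.prod = z0 * (P x).prod
      rw [hx3]; exact hl3
    · show (l.length : ℤ) ≤ (P x).length - k0 + k
      simp only at hl4
      omega
  · rintro ⟨w, hw1, hw2, hw3, hw4, l, hl1, hl2, hl3, hl4⟩
    simp only at hw2 hw3 hw4 hl2 hl3 hl4
    have hwI : dec A z0 w ∈ I := (hT _ (dec_mem_snd A hw1)).2 hw3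
    have hwI' : ∀ᶠ x in (𝒰 : Filter G), List.Sublist (dec A z0 w) (dec A z0 (P x)) := hwI
    show ∀ᶠ x in (𝒰 : Filter G), _
    filter_upwards [hP, hq0, hwI'] with x hx hxq hxw
    obtain ⟨hx1, hx2, hx3, hx4⟩ := hx
    obtain ⟨a, n, ha1, ha2, ha3⟩ := higman_insert A hcomm (C := C) (P x) z0 [] w (by simp) hx1
      (by simpa using hxw) (by
        rw [hw4, List.prod_nil, mul_one, hx3, hxq]) (by
        rw [List.nil_append, hx2])
    obtain ⟨l', h1, h2, h3, h4⟩ := absorb A hcomm ha1 z l hl1 hl2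
    refine ⟨l', h1, h4, ?_, ?_⟩
    · rw [h3, hl3, ← ha3, List.prod_nil, mul_one, hx3]
    · simp only [List.length_nil] at ha2
      show (l'.length : ℤ) ≤ len S x + k
      omega

omit hcomm [A.Normal] [Finite (G ⧸ A)] in
lemma countable_of_gen (h : Gen S) : Countable G := by
  have hsur : Function.Surjective (fun l : List {x : G // x ∈ S} => (l.map Subtype.val).prod) := by
    intro g
    obtain ⟨l, hl, hp⟩ := exists_word h.symm h.gen g
    refine ⟨l.attach.map (fun x => ⟨x.1, hl x.1 x.2⟩), ?_⟩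
    simp only [List.map_map]
    rw [← hp]
    congr 1
    conv_rhs => rw [← List.attach_map_subtype_val l]
    rfl
  exact hsur.countable

lemma countable_TT (h : Gen S) (C : Set (G ⧸ A)) :
    {T : Set (G × ℤ) | ∃ 𝒰 : Ultrafilter G, T = TT A S 𝒰 C}.Countable := by
  have hG : Countable G := countable_of_gen h
  have : Countable (G ⧸ A) := inferInstance
  apply ((Set.countable_singleton (∅ : Set (G × ℤ))).union
    (Set.countable_range (Theta A S C))).mono
  rintro T ⟨𝒰, rfl⟩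
  rcases TT_eq A hcomm h 𝒰 C with h1 | ⟨d, h1⟩
  · left; exact h1
  · right; exact ⟨d, h1.symm⟩

omit hcomm in
lemma lim_le_iff (h : Gen S) {ξ : G → ℝ} {𝒰 : Ultrafilter G} (hξ : Tendsto (bb S) 𝒰 (𝓝 ξ))
    (z : G) (k : ℤ) : ξ z ≤ k ↔ ∃ C : Set (G ⧸ A), (z, k) ∈ TT A S 𝒰 C := by
  have hz : Tendsto (fun x => bb S x z) 𝒰 (𝓝 (ξ z)) := (tendsto_pi_nhds.1 hξ) z
  have hint : ∀ x, bb S x z ≤ k ↔ (len S (z⁻¹ * x) : ℤ) ≤ len S x + k := by
    intro x
    simp only [bb]
    rw [sub_le_iff_le_add', ← Int.cast_natCast, ← Int.cast_natCast (n := len S x), ← Int.cast_add,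
      Int.cast_le]
  have hiff : ξ z ≤ k ↔ ∀ᶠ x in (𝒰 : Filter G), bb S x z ≤ k := by
    constructor
    · intro hle
      have h1 : ∀ᶠ x in (𝒰 : Filter G), bb S x z < k + 1 :=
        hz.eventually (gt_mem_nhds (by linarith))
      filter_upwards [h1] with x hx
      rw [hint]
      simp only [bb] at hx
      have h2 : ((len S (z⁻¹ * x) : ℤ) : ℝ) < ((len S x + k + 1 : ℤ) : ℝ) := by
        push_cast; linarith
      have h3 := Int.cast_lt.1 h2
      omega
    · intro hev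
      exact le_of_tendsto hz hev
  rw [hiff]
  have hC : (∀ᶠ x in (𝒰 : Filter G), bb S x z ≤ k) ↔
      ∀ᶠ x in (𝒰 : Filter G), ∃ C : Set (G ⧸ A), ∃ l : List G, (∀ s ∈ l, s ∈ (S : Set G)) ∧
        vis A z l = C ∧ z * l.prod = x ∧ (l.length : ℤ) ≤ len S x + k := by
    apply Filter.eventually_congr
    filter_upwards with x
    rw [hint]
    constructor
    · intro hle
      obtain ⟨l, h1, h2, h3⟩ := exists_geod h (z⁻¹ * x)
      refine ⟨vis A z l, l, fun s hs => h2 s hs, rfl, by rw [h3]; group, ?_⟩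
      rw [h1]; exact hle
    · rintro ⟨C, l, h1, _, h2, h3⟩
      have h4 : len S (z⁻¹ * x) ≤ l.length := len_le (fun s hs => h1 s hs) (by rw [← h2]; group)
      omega
  rw [hC, Ultrafilter.eventually_exists_iff]
  rfl

theorem closure_countable (h : Gen S) : (closure (range (bb S))).Countable := by
  classical
  have hU : ∀ ξ : G → ℝ, ∃ 𝒰 : Ultrafilter G, ξ ∈ closure (range (bb S)) →
      Tendsto (bb S) 𝒰 (𝓝 ξ) := by
    intro ξ
    by_cases hξ : ξ ∈ closure (range (bb S))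
    · have h1 : MapClusterPt ξ ⊤ (bb S) := by
        rw [MapClusterPt, Filter.map_top, ← mem_closure_iff_clusterPt]; exact hξ
      obtain ⟨𝒰, _, h2⟩ := mapClusterPt_iff_ultrafilter.1 h1
      exact ⟨𝒰, fun _ => h2⟩
    · exact ⟨Classical.arbitrary _, fun h' => absurd h' hξ⟩
  choose U hU using hU
  have hint : ∀ ξ ∈ closure (range (bb S)), ∀ z, ∃ n : ℤ, ξ z = n := by
    intro ξ hξ z
    have hcl : IsClosed {f : G → ℝ | f z ∈ range ((↑) : ℤ → ℝ)} :=
      (Int.isClosedEmbedding_coe_real.isClosed_range).preimage (continuous_apply z)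
    have h1 : ξ ∈ {f : G → ℝ | f z ∈ range ((↑) : ℤ → ℝ)} := by
      apply closure_minimal _ hcl hξ
      rintro _ ⟨x, rfl⟩
      exact ⟨(len S (z⁻¹ * x) : ℤ) - len S x, by simp [bb]⟩
    obtain ⟨n, hn⟩ := h1
    exact ⟨n, hn.symm⟩
  have hpi : (Set.pi univ (fun C : Set (G ⧸ A) =>
      {T : Set (G × ℤ) | ∃ 𝒰 : Ultrafilter G, T = TT A S 𝒰 C})).Countable :=
    Set.countable_univ_pi (fun C => countable_TT A hcomm h C)
  apply Set.MapsTo.countable_of_injOn (f := fun ξ : G → ℝ => fun C : Set (G ⧸ A) => TT A S (U ξ) C)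
    (t := Set.pi univ (fun C : Set (G ⧸ A) =>
      {T : Set (G × ℤ) | ∃ 𝒰 : Ultrafilter G, T = TT A S 𝒰 C})) _ _ hpi
  · intro ξ _ C _
    exact ⟨U ξ, rfl⟩
  · intro ξ hξ η hη heq
    have hle : ∀ z : G, ∀ k : ℤ, ξ z ≤ k ↔ η z ≤ k := by
      intro z k
      rw [lim_le_iff A h (hU ξ hξ), lim_le_iff A h (hU η hη)]
      have heq' : ∀ C : Set (G ⧸ A), TT A S (U ξ) C = TT A S (U η) C := fun C => congrFun heq C
      constructor
      · rintro ⟨C, hC⟩; exact ⟨C, by rw [← heq' C]; exact hC⟩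
      · rintro ⟨C, hC⟩; exact ⟨C, by rw [heq' C]; exact hC⟩
    funext z
    obtain ⟨n, hn⟩ := hint ξ hξ z
    obtain ⟨m, hm⟩ := hint η hη z
    apply le_antisymm
    · rw [hm]; exact (hle z m).2 hm.le
    · rw [hn]; exact (hle z n).1 hn.le

end Pool.Agent.Helper7.Horo
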